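import Pool.Agent.Helper1.TE.Goals2

/-!
# PROJECT TE (MP_8b4d68_lc), packet TE-FB: bounds for the registers
-/

set_option autoImplicit false

namespace Pool.Agent.Helper46.TE

open Pool.Agent.Helper65.LinSpace (dig tab nrec ifz eq01 le01 lt01 capPow Ctx)
open Pool.Agent.Helper1.TE
open Finset

theorem enc_nat {B a : ℕ} (h : a < B) (i : ℕ) : Ctx.enc a i < B := by
  have h0 : 0 < B := by omega
  show Pool.Agent.Helper65.LinSpace.cons a (fun _ => 0) i < B
  rcases i with _ | i
  · exact h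
  · exact h0

theorem enc_prod {α β : Type} [Ctx α] [Ctx β] {B : ℕ} (p : α × β) (h1 : ∀ i, Ctx.enc p.1 i < B)
    (h2 : ∀ i, Ctx.enc p.2 i < B) (i : ℕ) : Ctx.enc p i < B := by
  show (if i < Ctx.ar α then Ctx.enc p.1 i else Ctx.enc p.2 (i - Ctx.ar α)) < B
  split_ifs
  · exact h1 i
  · exact h2 _

theorem enc_sta {B : ℕ} (m h b u W U τ g v x1 x2 y1 y2 z1 z2 : ℕ) (h1 : m < B) (h2 : h < B)
    (h3 : b < B) (h4 : u < B) (h5 : W < B) (h6 : U < B) (h7 : τ < B) (h8 : g < B) (h9 : v < B)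
    (h10 : x1 < B) (h11 : x2 < B) (h12 : y1 < B) (h13 : y2 < B) (h14 : z1 < B) (h15 : z2 < B)
    (i : ℕ) :
    Ctx.enc (((m, h, b, u, W, U), (τ, g, v), ((x1, x2), (y1, y2), (z1, z2))) : Sta) i < B := by
  apply enc_prod
  · apply enc_prod
    · exact enc_nat h1
    apply enc_prod
    · exact enc_nat h2
    apply enc_prod
    · exact enc_nat h3
    apply enc_prod
    · exact enc_nat h4
    apply enc_prod
    · exact enc_nat h5
    · exact enc_nat h6
  · apply enc_prod
    · apply enc_prod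
      · exact enc_nat h7
      apply enc_prod
      · exact enc_nat h8
      · exact enc_nat h9
    · apply enc_prod
      · apply enc_prod
        · exact enc_nat h10
        · exact enc_nat h11
      apply enc_prod
      · apply enc_prod
        · exact enc_nat h12
        · exact enc_nat h13
      · apply enc_prod
        · exact enc_nat h14
        · exact enc_nat h15

theorem enc_hdr {B : ℕ} (m h b u W U : ℕ) (h1 : m < B) (h2 : h < B)
    (h3 : b < B) (h4 : u < B) (h5 : W < B) (h6 : U < B) (i : ℕ) :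
    Ctx.enc (hdr m h b u W U) i < B := by
  have h0 : 0 < B := by omega
  exact enc_sta m h b u W U 0 0 0 0 0 0 0 0 0 h1 h2 h3 h4 h5 h6 h0 h0 h0 h0 h0 h0 h0 h0 h0 i

theorem word_lt (w : List Bool) (i : ℕ) (b : ℕ) : word w i b < 2 ^ b := by
  induction b with
  | zero => simp [word]
  | succ b ih =>
    rw [word, pow_succ]
    have h1 : (w.getD (i + b) false).toNat ≤ 1 := Bool.toNat_le _
    omega

theorem gFB : GoalFB := by
  intro hCHS hALG hALB hPB hFU hOK hPG ok tst mal w h b x hF hI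
  have hh : 1 ≤ h := hF.1.2.2.1
  have hb : 1 ≤ b := hF.1.2.2.2.1
  obtain ⟨hs1, hs2, hLP, hPM, hPMp, h5, h3b, h2h, h4b, h2s⟩ := hPB h b hh hb
  set E := EP h b with hE
  have hEge : 3 * h + 3 * b + 2 ≤ E := by
    rw [hE]
    unfold EP
    omega
  have hEB : 2 ^ E * 16 ≤ 2 ^ SpB h b := by
    have h1 : (16 : ℕ) = 2 ^ 4 := by norm_num
    rw [h1, ← pow_add]
    apply Nat.pow_le_pow_right (by norm_num)
    unfold SpB
    have h2 : 3 * 7 ≤ (h + 2) * (2 * sP h b + 5) := Nat.mul_le_mul (by omega) (by omega)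
    omega
  have hE0 : 1 ≤ 2 ^ E := Nat.one_le_two_pow
  have hEl : E < 2 ^ E := Nat.lt_two_pow_self
  set B := 2 ^ SpB h b with hB
  have hpow : ∀ k, k ≤ E → 2 ^ k ≤ 2 ^ E := fun k hk => Nat.pow_le_pow_right (by norm_num) hk
  have h4b' : 4 ^ b = 2 ^ (2 * b) := by
    rw [pow_mul]
    norm_num
  induction hI with
  | rej =>
    apply enc_hdr <;> omega
  | m0 h' h1 =>
    have h2 := (hFU ok w h' 0 h b hF).2.2.2 h1
    apply enc_hdr <;> omega
  | m1 h' b' h1 =>
    have h2 := (hFU ok w h' b' h b hF).2.2.1 h1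
    apply enc_hdr <;> omega
  | m2 h' b' u h1 hu h2 =>
    obtain ⟨rfl, rfl⟩ := (hFU ok w h' b' h b hF).2.1 h1
    have h3 := hpow u (by omega)
    apply enc_hdr <;> omega
  | m3 h' b' u h1 hu h2 h3 =>
    obtain ⟨rfl, rfl⟩ := (hFU ok w h' b' h b hF).2.1 h1
    have h4 := hpow u (by omega)
    have h5 := hpow h' (by omega)
    apply enc_hdr <;> omega
  | m4 h' b' h1 h2 h3 =>
    obtain ⟨rfl, rfl⟩ := (hFU ok w h' b' h b hF).2.1 h1
    have h5 := hpow h' (by omega)
    apply enc_hdr <;> omega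
  | m5 h' b' h1 h2 h3 h4 =>
    obtain ⟨rfl, rfl⟩ := (hFU ok w h' b' h b hF).2.1 h1
    have h5 := hpow h' (by omega)
    apply enc_hdr <;> omega
  | m6 h' b' u h1 hu =>
    obtain ⟨rfl, rfl⟩ := (hFU ok w h' b' h b hF).1 h1
    have h4 := hpow u (by omega)
    apply enc_hdr <;> omega
  | m7 h' b' u τ g v C h1 hτ hu hg hv hC =>
    obtain ⟨rfl, rfl⟩ := (hFU ok w h' b' h b hF).1 h1
    have hg2 : g < 2 ^ E := lt_of_lt_of_le hg (hpow _ (by omega))
    have hv2 : v < 2 ^ E := by
      rw [hv]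
      exact lt_of_lt_of_le (word_lt _ _ _) (hpow _ (by omega))
    have hP0 : 0 < PM h' b' (2 ^ E) ^ (mP h' b' + 2) := by positivity
    have hALB' := hALB hCHS hALG (gadM h' b' (2 ^ E)) (hOK h' b' hh hb) tst
      (leafV h' b' (w.drop (h' + b' + 2))) (tabV h' b' (w.drop (h' + b' + 2)))
      (fun j => word_lt _ _ _) (fun j a c => word_lt _ _ _) h' 1 0 0 (toF C0) (toF C) τ 1 hτ.le
      (by
        intro k
        show (toF C0 k).1 < PM h' b' (2 ^ E) ^ (mP h' b' + 2)
        have : (toF C0 k).1 = 0 := by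
          fin_cases k <;> rfl
        rw [this]
        exact hP0)
      (by
        intro k
        show (toF C0 k).2 < 1
        have : (toF C0 k).2 = 0 := by
          fin_cases k <;> rfl
        rw [this]
        exact Nat.one_pos) hC
    have hk1 : ∀ k : Fin 3, (toF C k).1 < B := by
      intro k
      have h6 : (toF C k).1 < PM h' b' (2 ^ E) ^ (mP h' b' + 2) := (hALB' k).1
      omega
    have hk2 : ∀ k : Fin 3, (toF C k).2 < B := by
      intro k
      have h6 : (toF C k).2 < 1 * GM h' b' (2 ^ E) ^ (h' + 1) := (hALB' k).2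
      have h7 : GM h' b' (2 ^ E) ^ (h' + 1) ≤ (2 ^ (2 * sP h' b' + 5)) ^ (h' + 1) :=
        Nat.pow_le_pow_left (hPG h' b' hh hb) _
      have h8 : (2 ^ (2 * sP h' b' + 5)) ^ (h' + 1) ≤ B := by
        rw [hB, ← pow_mul]
        apply Nat.pow_le_pow_right (by norm_num)
        unfold SpB
        have h9 : (2 * sP h' b' + 5) * (h' + 1) ≤ (h' + 2) * (2 * sP h' b' + 5) := by
          rw [Nat.mul_comm]
          exact Nat.mul_le_mul_right _ (by omega)
        omega
      omega
    obtain ⟨⟨x1, x2⟩, ⟨y1, y2⟩, ⟨z1, z2⟩⟩ := C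
    have e0 : toF ((x1, x2), (y1, y2), (z1, z2)) 0 = (x1, x2) := rfl
    have e1 : toF ((x1, x2), (y1, y2), (z1, z2)) 1 = (y1, y2) := rfl
    have e2 : toF ((x1, x2), (y1, y2), (z1, z2)) 2 = (z1, z2) := rfl
    have a0 := hk1 0
    have a1 := hk1 1
    have a2 := hk1 2
    have b0 := hk2 0
    have b1 := hk2 1
    have b2 := hk2 2
    rw [e0] at a0 b0
    rw [e1] at a1 b1
    rw [e2] at a2 b2
    exact enc_sta 7 h' b' u (2 ^ E) 0 τ g v x1 x2 y1 y2 z1 z2 (by omega) (by omega) (by omega)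
      (by omega) (by omega) (by omega) (by omega) (by omega) (by omega) a0 b0 a1 b1 a2 b2
  | m8 h1 =>
    apply enc_hdr <;> omega

end Pool.Agent.Helper46.TE
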