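import Pool.Agent.Helper1.TE.Goals3

/-!
# PROJECT TE (MP_8b4d68_lc), packet TE-MOK: everything about the numeric machine
-/

set_option autoImplicit false

namespace Pool.Agent.Helper46.TE

open Pool.Agent.Helper65.LinSpace (dig tab nrec ifz eq01 le01 lt01 capPow Ctx LS)
open Pool.Agent.Helper1.TE

theorem enc_nat_zero (i : ℕ) : Ctx.enc (0 : ℕ) i = 0 := by
  show Pool.Agent.Helper65.LinSpace.cons 0 (fun _ => 0) i = 0
  rcases i with _ | i <;> rfl

theorem enc_prod_zero {α β : Type} [Ctx α] [Ctx β] (p : α × β) (h1 : ∀ i, Ctx.enc p.1 i = 0)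
    (h2 : ∀ i, Ctx.enc p.2 i = 0) (i : ℕ) : Ctx.enc p i = 0 := by
  show (if i < Ctx.ar α then Ctx.enc p.1 i else Ctx.enc p.2 (i - Ctx.ar α)) = 0
  split_ifs
  · exact h1 i
  · exact h2 _

theorem enc_start (i : ℕ) : Ctx.enc (hdr 0 0 0 0 0 0) i = 0 := by
  have hn := enc_nat_zero
  show Ctx.enc (((0, 0, 0, 0, 0, 0), (0, 0, 0), ((0, 0), (0, 0), (0, 0))) : Sta) i = 0
  refine enc_prod_zero _ ?_ ?_ i
  · refine enc_prod_zero _ hn (enc_prod_zero _ hn (enc_prod_zero _ hn (enc_prod_zero _ hn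
      (enc_prod_zero _ hn hn))))
  · refine enc_prod_zero _ (enc_prod_zero _ hn (enc_prod_zero _ hn hn)) ?_
    refine enc_prod_zero _ (enc_prod_zero _ hn hn) (enc_prod_zero _ (enc_prod_zero _ hn hn)
      (enc_prod_zero _ hn hn))

theorem gMOK : GoalMOK := by
  intro hCOM hLNX hFS hFC hFM hFUN hFB hFB2 ok tst mal hok htst
  obtain ⟨ha, hn, hacc⟩ := hLNX ok tst mal hok htst
  obtain ⟨k, M, c, hM⟩ := hCOM (machM ok tst mal) ha hn hacc
    (by
      intro a
      show eq01 a.mo 8 ≤ 1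
      unfold eq01
      split_ifs <;> omega)
    (fun i => enc_start i) rfl
  have hlang : ∀ w, (∃ a, (machM ok tst mal).Reach w a ∧ (machM ok tst mal).acc a ≠ 0) ↔
      w ∈ LangM ok tst mal := by
    intro w
    constructor
    · rintro ⟨a, h1, h2⟩
      exact (hFS ok tst mal w a h1).2 h2
    · intro hw
      have h3 : (machM ok tst mal).acc accS ≠ 0 := by
        show eq01 8 8 ≠ 0
        simp [eq01]
      rcases hw with ⟨h, b, hF, ht⟩ | ⟨hmal, hno⟩
      · exact ⟨accS, hFC ok tst mal w h b hF ht, h3⟩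
      · exact ⟨accS, hFM ok tst mal w hmal hno, h3⟩
  have hcore : ∀ (w : List Bool) (S : ℕ),
      (∀ x, Inv ok tst mal w x → ∀ i, Ctx.enc x i < 2 ^ S) →
      (M.Accepts w ↔ w ∈ LangM ok tst mal) ∧ M.Within w ((c * (S + 1) : ℕ) : ℝ) ∧
        M.Unambiguous w := by
    intro w S hS
    obtain ⟨h1, h2, h3⟩ := hM w S (fun a hR i => hS a (hFS ok tst mal w a hR).1 i)
      (hFUN ok tst mal w)
    exact ⟨h1.trans (hlang w), h2, h3⟩
  have hlog : ∀ n : ℕ, 2 * n + 9 < 2 ^ (Nat.log 2 (n + 1) + 5) := by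
    intro n
    have h1 : n + 1 < 2 ^ (Nat.log 2 (n + 1) + 1) := Nat.lt_pow_succ_log_self (by norm_num) _
    have h2 : 2 ^ (Nat.log 2 (n + 1) + 5) = 16 * 2 ^ (Nat.log 2 (n + 1) + 1) := by
      rw [show Nat.log 2 (n + 1) + 5 = 4 + (Nat.log 2 (n + 1) + 1) by omega, pow_add]
      norm_num
    omega
  refine ⟨k, M, c, fun w => ?_⟩
  have hfull : ∀ h b, Full ok w h b → ∀ x, Inv ok tst mal w x → ∀ i,
      Ctx.enc x i < 2 ^ SpB h b := fun h b hF x hx => hFB ok tst mal w h b x hF hx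
  have hnot : (¬ ∃ h b, Full ok w h b) → ∀ x, Inv ok tst mal w x → ∀ i,
      Ctx.enc x i < 2 ^ (Nat.log 2 (w.length + 1) + 5) := by
    intro hno x hx i
    exact lt_of_le_of_lt (hFB2 ok tst mal w x hno hx i) (hlog _)
  have hboth : (M.Accepts w ↔ w ∈ LangM ok tst mal) ∧ M.Unambiguous w := by
    by_cases hF : ∃ h b, Full ok w h b
    · obtain ⟨h, b, hF⟩ := hF
      obtain ⟨h1, -, h3⟩ := hcore w _ (hfull h b hF)
      exact ⟨h1, h3⟩
    · obtain ⟨h1, -, h3⟩ := hcore w _ (hnot hF)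
      exact ⟨h1, h3⟩
  refine ⟨hboth.1, hboth.2, fun h b hF => (hcore w _ (hfull h b hF)).2.1, fun hno => ?_⟩
  have h1 := (hcore w _ (hnot hno)).2.1
  exact h1

end Pool.Agent.Helper46.TE
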